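import Pool.Agent.R130.BraidLambda

/-!
# MP_260d59_co, Q1: isometric dimension and diameter agree for braid graphs of type `Λ`
-/

set_option autoImplicit false

namespace Pool.Agent.Results.MP_260d59_co.IsometricDim

open Pool.Agent.R130.Braid Pool.Agent.R130.Puzzle

/-- The hypercube `Q_n`: vertices are the functions `Fin n → Bool`, and two of them are adjacent
when they differ in exactly one coordinate. -/
def cube (n : ℕ) : SimpleGraph (Fin n → Bool) where
  Adj x y := hammingDist x y = 1
  symm := ⟨fun x y h => by rw [hammingDist_comm]; exact h⟩
  loopless := ⟨fun x h => by rw [hammingDist_self] at h; omega⟩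

/-- The graph `H` embeds isometrically in the hypercube `Q_n`. -/
def EmbedsInCube {V : Type*} (H : SimpleGraph V) (n : ℕ) : Prop :=
  ∃ f : V → (Fin n → Bool), ∀ u v, (cube n).dist (f u) (f v) = H.dist u v

lemma exists_walk_cube (n : ℕ) (y : Fin n → Bool) : ∀ (k : ℕ) (x : Fin n → Bool),
    hammingDist x y = k → ∃ w : (cube n).Walk x y, w.length = k := by
  intro k
  induction k with
  | zero =>
    intro x h
    have := hammingDist_eq_zero.mp h
    subst this
    exact ⟨SimpleGraph.Walk.nil, rfl⟩
  | succ k ih =>
    intro x h
    obtain ⟨i, hi⟩ : ∃ i, x i ≠ y i := by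
      by_contra hcon
      push Not at hcon
      have : x = y := funext hcon
      rw [this, hammingDist_self] at h
      omega
    set x' := Function.update x i (y i) with hx'
    have h1 : hammingDist x x' = 1 := by
      unfold hammingDist
      rw [Finset.card_eq_one]
      refine ⟨i, ?_⟩
      ext j
      rw [Finset.mem_filter, Finset.mem_singleton]
      by_cases hj : j = i
      · subst hj
        simp [hx', hi]
      · simp [hx', hj]
    have h2 : hammingDist x' y = k := by
      have h3 : (Finset.univ.filter (fun j => x' j ≠ y j)) =
          (Finset.univ.filter (fun j => x j ≠ y j)).erase i := by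
        ext j
        rw [Finset.mem_erase, Finset.mem_filter, Finset.mem_filter]
        by_cases hj : j = i
        · subst hj
          simp [hx']
        · simp [hx', hj]
      have h4 : hammingDist x' y = (Finset.univ.filter (fun j => x' j ≠ y j)).card := rfl
      have h5 : hammingDist x y = (Finset.univ.filter (fun j => x j ≠ y j)).card := rfl
      rw [h4, h3, Finset.card_erase_of_mem (by simp [hi]), ← h5, h]
      rfl
    obtain ⟨w, hw⟩ := ih x' h2
    have hadj : (cube n).Adj x x' := h1
    exact ⟨SimpleGraph.Walk.cons hadj w, by rw [SimpleGraph.Walk.length_cons, hw]⟩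

/-- the distance of the hypercube is the Hamming distance -/
lemma dist_cube (n : ℕ) (x y : Fin n → Bool) : (cube n).dist x y = hammingDist x y := by
  obtain ⟨w, hw⟩ := exists_walk_cube n y _ x rfl
  apply le_antisymm
  · rw [← hw]
    exact SimpleGraph.dist_le w
  · have hr : (cube n).Reachable x y := ⟨w⟩
    obtain ⟨w', hw'⟩ := hr.exists_walk_length_eq_dist
    rw [← hw']
    clear hw hw' hr w
    induction w' with
    | nil => rw [hammingDist_self]; exact Nat.zero_le _
    | cons h p ih =>
      rename_i a b c
      have h1 := hammingDist_triangle a b c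
      have h2 : hammingDist a b = 1 := h
      rw [SimpleGraph.Walk.length_cons]
      omega

/-- **In a Coxeter system of type `Λ`, for every reduced word `α` the braid graph is connected, and
its diameter is equal to its isometric dimension**: the number `D` is both the largest distance of
two vertices and the least dimension of a hypercube in which the braid graph embeds
isometrically. -/
theorem result {B W : Type*} {M : CoxeterMatrix B} [Group W] (cs : CoxeterSystem M W)
    (hsl : SimplyLaced M) (htf : TriangleFree M) (α : List B) (hα : cs.IsReduced α) :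
    (braidGraph M α).Connected ∧ ∃ D : ℕ,
      IsGreatest {k | ∃ u v : braidClass M α, (braidGraph M α).dist u v = k} D ∧
      IsLeast {n | EmbedsInCube (braidGraph M α) n} D := by
  obtain ⟨u, v, huv⟩ := antipodal_braid hsl htf hα
  have hd : (braidGraph M α).dist u v = (CF (puz cs α hα)).card := by
    rw [dist_braid hsl htf hα, Finset.filter_true_of_mem huv]
  refine ⟨braid_connected (cs := cs) hsl hα, (CF (puz cs α hα)).card, ⟨⟨u, v, hd⟩, ?_⟩, ?_, ?_⟩
  · rintro k ⟨x, y, rfl⟩
    rw [dist_braid hsl htf hα]
    exact Finset.card_filter_le _ _
  · set e := (CF (puz cs α hα)).equivFin with he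
    refine ⟨fun β i => chiW hα β (e.symm i).1, fun β γ => ?_⟩
    rw [dist_cube, dist_braid hsl htf hα]
    unfold hammingDist
    refine Finset.card_bij (fun i _ => (e.symm i).1) ?_ ?_ ?_
    · intro i hi
      rw [Finset.mem_filter] at hi ⊢
      exact ⟨(e.symm i).2, hi.2⟩
    · intro i _ j _ h
      exact e.symm.injective (Subtype.ext h)
    · intro p hp
      rw [Finset.mem_filter] at hp
      refine ⟨e ⟨p, hp.1⟩, ?_, by simp⟩
      rw [Finset.mem_filter]
      refine ⟨Finset.mem_univ _, ?_⟩
      simpa using hp.2
  · rintro n ⟨f, hf⟩
    rw [← hd, ← hf u v, dist_cube]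
    have := hammingDist_le_card_fintype (x := f u) (y := f v)
    rw [Fintype.card_fin] at this
    exact this

end Pool.Agent.Results.MP_260d59_co.IsometricDim
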